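import Pool.Agent.H97R2.LPB.Props

open Polynomial Filter Topology MeasureTheory Pool.Agent.H337R2 Pool.Agent.LP

namespace Pool.Agent.LPB

namespace W281

noncomputable def g (y u : ℝ) : ℝ := 1 / 2 * Real.log (u ^ 2 + y ^ 2)

lemma norm_factor (y : ℝ) (k : ℕ) : ‖zl y + (k : ℂ)‖ = Real.exp (g y ((k : ℝ) + 1 / 2)) := by
  have hpos : 0 < ((k : ℝ) + 1 / 2) ^ 2 + y ^ 2 := by positivity
  have hre : (zl y + (k : ℂ)).re = (k : ℝ) + 1 / 2 := by
    simp [zl]
    ring
  have him : (zl y + (k : ℂ)).im = y := by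
    simp [zl]
  rw [Complex.norm_eq_sqrt_sq_add_sq, hre, him, g, Real.sqrt_eq_rpow, Real.rpow_def_of_pos hpos]
  congr 1
  ring

lemma norm_An (y : ℝ) (n : ℕ) : ‖aeval (zl y) (An n)‖ =
    Real.exp (∑ i ∈ Finset.range n, g y ((i : ℝ) + 1 / 2)) := by
  have h : aeval (zl y) (An n) = ∏ i ∈ Finset.range n, (zl y + (i : ℂ)) := by
    simp [An, map_prod]
  rw [h, norm_prod, Real.exp_sum]
  exact Finset.prod_congr rfl fun i _ => norm_factor y i

lemma norm_Pn (y : ℝ) (a b : ℕ) : ‖aeval (zl y) (Pn a b)‖ =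
    Real.exp (∑ k ∈ Finset.Icc a b, g y ((k : ℝ) + 1 / 2)) := by
  have h : aeval (zl y) (Pn a b) = ∏ i ∈ Finset.Icc a b, (zl y + (i : ℂ)) := by
    simp [Pn, map_prod]
  rw [h, norm_prod, Real.exp_sum]
  exact Finset.prod_congr rfl fun i _ => norm_factor y i

lemma hasDeriv (y : ℝ) {u : ℝ} (hu : 0 < u) : HasDerivAt (fun s => Pc s y) (g y u) u := by
  have hpos : 0 < u ^ 2 + y ^ 2 := by positivity
  have h1 : HasDerivAt (fun s : ℝ => s ^ 2 + y ^ 2) (2 * u) u := by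
    have := (hasDerivAt_pow 2 u).add_const (y ^ 2)
    simpa using this
  have h2 : HasDerivAt (fun s : ℝ => Real.log (s ^ 2 + y ^ 2)) (2 * u / (u ^ 2 + y ^ 2)) u :=
    h1.log hpos.ne'
  have h3 : HasDerivAt (fun s : ℝ => s / 2) (1 / 2) u := (hasDerivAt_id u).div_const 2
  have h4 := h3.mul h2
  rcases eq_or_ne y 0 with rfl | hy
  · have h5 := h4.sub (hasDerivAt_id u)
    have h6 : HasDerivAt (fun s => Pc s 0) (1 / 2 * Real.log (u ^ 2 + 0 ^ 2) +
        u / 2 * (2 * u / (u ^ 2 + 0 ^ 2)) - 1) u := by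
      refine h5.congr_of_eventuallyEq (Filter.Eventually.of_forall fun s => ?_)
      simp [Pc]
    convert h6 using 1
    unfold g
    field_simp
    ring
  · have h7 : HasDerivAt (fun s : ℝ => s / y) (1 / y) u := (hasDerivAt_id u).div_const y
    have h8 := (h7.arctan).const_mul y
    have h9 := (h4.sub (hasDerivAt_id u)).add h8
    have h6 : HasDerivAt (fun s => Pc s y) (1 / 2 * Real.log (u ^ 2 + y ^ 2) +
        u / 2 * (2 * u / (u ^ 2 + y ^ 2)) - 1 + y * (1 / (1 + (u / y) ^ 2) * (1 / y))) u := by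
      refine h9.congr_of_eventuallyEq (Filter.Eventually.of_forall fun s => ?_)
      simp [Pc]
    convert h6 using 1
    unfold g
    have h10 : 1 + (u / y) ^ 2 = (u ^ 2 + y ^ 2) / y ^ 2 := by
      field_simp
      ring
    rw [h10]
    field_simp
    ring

lemma g_mono (y : ℝ) {a b : ℝ} (ha : 0 < a) (hab : a ≤ b) : g y a ≤ g y b := by
  unfold g
  have h1 : 0 < a ^ 2 + y ^ 2 := by positivity
  have h2 : a ^ 2 + y ^ 2 ≤ b ^ 2 + y ^ 2 := by nlinarith
  have := Real.log_le_log h1 h2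
  linarith

lemma lower (y : ℝ) {a b : ℝ} (ha : 0 < a) (hab : a < b) : (b - a) * g y a ≤ Pc b y - Pc a y := by
  obtain ⟨c, hc, hc2⟩ := exists_hasDerivAt_eq_slope (fun s => Pc s y) (g y) hab
    (fun s hs => (hasDeriv y (lt_of_lt_of_le ha hs.1)).continuousAt.continuousWithinAt)
    (fun s hs => hasDeriv y (lt_trans ha hs.1))
  have h1 := g_mono y ha hc.1.le
  have h2 : 0 < b - a := by linarith
  rw [eq_div_iff h2.ne'] at hc2
  nlinarith

lemma upper (y : ℝ) {a b : ℝ} (ha : 0 < a) (hab : a < b) : Pc b y - Pc a y ≤ (b - a) * g y b := by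
  obtain ⟨c, hc, hc2⟩ := exists_hasDerivAt_eq_slope (fun s => Pc s y) (g y) hab
    (fun s hs => (hasDeriv y (lt_of_lt_of_le ha hs.1)).continuousAt.continuousWithinAt)
    (fun s hs => hasDeriv y (lt_trans ha hs.1))
  have h1 := g_mono y (lt_trans ha hc.1) hc.2.le
  have h2 : 0 < b - a := by linarith
  rw [eq_div_iff h2.ne'] at hc2
  nlinarith

lemma sum_le (y : ℝ) (n : ℕ) : ∑ i ∈ Finset.range n, g y ((i : ℝ) + 1 / 2) ≤
    Pc ((n : ℝ) + 1 / 2) y - Pc (1 / 2) y := by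
  induction n with
  | zero => simp
  | succ n ih =>
    rw [Finset.sum_range_succ]
    have h := lower y (a := (n : ℝ) + 1 / 2) (b := (n : ℝ) + 1 / 2 + 1) (by positivity) (by linarith)
    have h2 : ((n + 1 : ℕ) : ℝ) + 1 / 2 = (n : ℝ) + 1 / 2 + 1 := by push_cast; ring
    rw [h2]
    linarith

lemma sum_ge (y : ℝ) (n m : ℕ) (hn : 1 ≤ n) : Pc ((n + m : ℕ) + 1 / 2) y - Pc ((n : ℝ) - 1 / 2) y ≤
    ∑ k ∈ Finset.Icc n (n + m), g y ((k : ℝ) + 1 / 2) := by
  have hn' : (1 : ℝ) ≤ n := by exact_mod_cast hn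
  induction m with
  | zero =>
    have h := upper y (a := (n : ℝ) - 1 / 2) (b := (n : ℝ) + 1 / 2) (by linarith) (by linarith)
    simp only [add_zero, Finset.Icc_self, Finset.sum_singleton]
    have : (n : ℝ) + 1 / 2 - ((n : ℝ) - 1 / 2) = 1 := by ring
    rw [this] at h
    linarith
  | succ m ih =>
    have h0 : Finset.Icc n (n + (m + 1)) = insert (n + m + 1) (Finset.Icc n (n + m)) := by
      ext k
      simp only [Finset.mem_Icc, Finset.mem_insert]
      omega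
    rw [h0, Finset.sum_insert (by simp)]
    have h := upper y (a := ((n + m : ℕ) : ℝ) + 1 / 2) (b := ((n + m : ℕ) : ℝ) + 1 / 2 + 1)
      (by positivity) (by linarith)
    have h2 : ((n + (m + 1) : ℕ) : ℝ) + 1 / 2 = ((n + m : ℕ) : ℝ) + 1 / 2 + 1 := by push_cast; ring
    have h3 : ((n + m + 1 : ℕ) : ℝ) + 1 / 2 = ((n + m : ℕ) : ℝ) + 1 / 2 + 1 := by push_cast; ring
    rw [h2, h3]
    linarith

lemma half_ge (y : ℝ) : -1 ≤ Pc (1 / 2) y := by
  unfold Pc
  have h1 : Real.log (1 / 4) ≤ Real.log ((1 / 2) ^ 2 + y ^ 2) := by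
    apply Real.log_le_log (by norm_num)
    nlinarith [sq_nonneg y]
  have h2 : Real.log (1 / 4) = -(2 * Real.log 2) := by
    rw [show (1 / 4 : ℝ) = (2 ^ 2)⁻¹ by norm_num, Real.log_inv, Real.log_pow]
    norm_num
  have h3 : 0 ≤ y * Real.arctan (1 / 2 / y) := by
    rcases le_total 0 y with hy | hy
    · exact mul_nonneg hy (Real.arctan_nonneg.2 (by positivity))
    · have : Real.arctan (1 / 2 / y) ≤ 0 := by
        have h0 : 1 / 2 / y ≤ 0 := div_nonpos_of_nonneg_of_nonpos (by norm_num) hy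
        have h00 := Real.arctan_strictMono.monotone h0
        rwa [Real.arctan_zero] at h00
      exact mul_nonneg_of_nonpos_of_nonpos hy this
  have h4 := Real.log_two_lt_d9
  nlinarith

lemma scale (a y : ℝ) (n : ℕ) (hn : 1 ≤ n) (ha : 0 < a) :
    Pc (a * n) y = n * Pc a (y / n) + a * n * Real.log n := by
  have hn' : (0 : ℝ) < n := by exact_mod_cast hn
  have h1 : (a * n) ^ 2 + y ^ 2 = (n : ℝ) ^ 2 * (a ^ 2 + (y / n) ^ 2) := by
    field_simp
  have h2 : a * n / y = a / (y / n) := by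
    rcases eq_or_ne y 0 with rfl | hy
    · simp
    · field_simp
  have h3 : 0 < a ^ 2 + (y / n) ^ 2 := by positivity
  unfold Pc
  rw [h1, Real.log_mul (by positivity) h3.ne', Real.log_pow, h2]
  field_simp
  push_cast
  ring

lemma cosh_ge (y : ℝ) : Real.exp (Real.pi * |y| - Real.log 2) ≤ Real.cosh (Real.pi * y) := by
  rw [← Real.cosh_abs, abs_mul, abs_of_pos Real.pi_pos, Real.exp_sub, Real.exp_log (by norm_num),
    Real.cosh_eq]
  have := Real.exp_pos (-(Real.pi * |y|))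
  linarith

end W281

open W281 in
theorem G5_weight : S_weight := by
  refine ⟨4, by norm_num, fun n hn y => ?_⟩
  have hn1 : 1 ≤ n := by omega
  have hn' : (2 : ℝ) ≤ n := by exact_mod_cast hn
  have hnp : (0 : ℝ) < n := by linarith
  unfold ww
  rw [norm_An, norm_Pn, ← Real.exp_sub]
  have h5 : 5 * n = n + 4 * n := by ring
  -- the bound on the exponent
  have hA := sum_le y n
  have hP := sum_ge y n (4 * n) hn1
  rw [← h5] at hP
  have hhalf := half_ge y
  have hG1 := upper y (a := (n : ℝ)) (b := (n : ℝ) + 1 / 2) hnp (by linarith)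
  have hG2 := lower y (a := (n : ℝ) - 1 / 2) (b := (n : ℝ)) (by linarith) (by linarith)
  have hG3 := lower y (a := ((5 * n : ℕ) : ℝ)) (b := ((5 * n : ℕ) : ℝ) + 1 / 2)
    (by push_cast; linarith) (by linarith)
  have hgnn : ∀ u : ℝ, 1 ≤ u → 0 ≤ g y u := by
    intro u hu
    unfold g
    have : 0 ≤ Real.log (u ^ 2 + y ^ 2) := Real.log_nonneg (by nlinarith [sq_nonneg y])
    linarith
  have hg2 := hgnn ((n : ℝ) - 1 / 2) (by linarith)
  have hg3 := hgnn ((5 * n : ℕ) : ℝ) (by push_cast; linarith)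
  have hs1 := scale 1 y n hn1 (by norm_num)
  have hs5 := scale 5 y n hn1 (by norm_num)
  rw [one_mul] at hs1
  have h5c : ((5 * n : ℕ) : ℝ) = 5 * (n : ℝ) := by push_cast; ring
  rw [h5c] at hG3 hg3 hP
  have hlog : g y ((n : ℝ) + 1 / 2) ≤ 2 * Real.log (n + |y|) := by
    unfold g
    have e1 : ((n : ℝ) + 1 / 2) ^ 2 + y ^ 2 ≤ ((n : ℝ) + |y|) ^ 4 := by
      have e2 : y ^ 2 = |y| ^ 2 := (sq_abs y).symm
      have e3 : 0 ≤ |y| := abs_nonneg y
      rw [e2]
      have e4 : (4 : ℝ) ≤ (n + |y|) ^ 2 := by nlinarith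
      have e5 : ((n : ℝ) + 1 / 2) ^ 2 + |y| ^ 2 ≤ 4 * (n + |y|) ^ 2 := by nlinarith
      nlinarith [sq_nonneg ((n : ℝ) + |y|)]
    have e6 : 0 < ((n : ℝ) + 1 / 2) ^ 2 + y ^ 2 := by positivity
    have e7 := Real.log_le_log e6 e1
    rw [Real.log_pow] at e7
    push_cast at e7
    linarith
  have hlog2 : Real.log 2 ≤ Real.log (n + |y|) :=
    Real.log_le_log (by norm_num) (by linarith [abs_nonneg y])
  have hl2 := Real.log_two_gt_d9
  have hcosh := cosh_ge y
  have hcpos : 0 < Real.cosh (Real.pi * y) := Real.cosh_pos _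
  rw [div_le_iff₀ hcpos]
  refine le_trans ?_ (mul_le_mul_of_nonneg_left hcosh (Real.exp_pos _).le)
  rw [← Real.exp_add]
  apply Real.exp_le_exp.2
  have hPhi : n * Phi (y / n) = n * (2 * Pc 1 (y / n) - Pc 5 (y / n)) - Real.pi * |y| := by
    unfold Phi
    rw [abs_div, abs_of_pos hnp]
    field_simp
  rw [hPhi]
  nlinarith

end Pool.Agent.LPB
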